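import Pool.Agent.Work.MP_65e34f.Basic

/-!
# MP_65e34f_al, blocks BF2 and BS2 : two even periods
-/

namespace Pool.FG.helper79

open Matrix Pool.FG

section
variable {K : Type} [Field K]

/-- the torus normalizer of a nonscalar element is proper -/
lemma Nor_ne_top [Finite K] (hTRC : Stmt_TRC) (hROS : Stmt_ROS) (hq : 202 ≤ Nat.card K) (y : SL K)
    (hy : ¬ Sc y) : Nor (y : M2 K) ≠ ⊤ := by
  intro htop
  have hsub : {x : SL K | tr x = 0} ⊆
      {b : SL K | b ∈ (⊤ : Subgroup (SL K)) ∧ b * y = y * b} ∪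
      {b : SL K | b ∈ (⊤ : Subgroup (SL K)) ∧ b * y = y⁻¹ * b} := by
    intro x _
    have hx : x ∈ Nor (y : M2 K) := by rw [htop]; exact Subgroup.mem_top _
    have hx' : (x : M2 K) * (y : M2 K) = (y : M2 K) * (x : M2 K) ∨
        (x : M2 K) * (y : M2 K) = (tr y • (1 : M2 K) - (y : M2 K)) * (x : M2 K) := hx
    rcases hx' with h | h
    · left
      refine ⟨Subgroup.mem_top _, ?_⟩
      apply Subtype.ext
      rw [Matrix.SpecialLinearGroup.coe_mul, Matrix.SpecialLinearGroup.coe_mul]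
      exact h
    · right
      refine ⟨Subgroup.mem_top _, ?_⟩
      apply Subtype.ext
      rw [Matrix.SpecialLinearGroup.coe_mul, Matrix.SpecialLinearGroup.coe_mul, inv_eq]
      exact h
  have h1 := (Set.ncard_le_ncard hsub (Set.toFinite _)).trans (Set.ncard_union_le _ _)
  have h2 := (hROS K).2.2.2.1 y (Subgroup.mem_top _) hy y (Subgroup.mem_top _)
  have h3 := (hROS K).2.2.2.1 y (Subgroup.mem_top _) hy y⁻¹ (Subgroup.mem_top _)
  have h4 := (hTRC K 1 0 one_ne_zero).2.2.1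
  have h5 : 202 * Nat.card K ≤ Nat.card K ^ 2 := by
    rw [pow_two]
    exact Nat.mul_le_mul_right _ hq
  omega

/-- there is a nonscalar element -/
lemma exists_nonsc : ∃ y : SL K, ¬ Sc y := by
  obtain ⟨y, hy⟩ : ∃ y : SL K, (y : M2 K) = !![1, 1; 0, 1] :=
    ⟨⟨!![1, 1; 0, 1], by simp [Matrix.det_fin_two]⟩, rfl⟩
  refine ⟨y, ?_⟩
  rw [Sc_iff]
  rintro ⟨h, _⟩
  have h2 : (y : M2 K) 0 1 = 1 := by rw [hy]; rfl
  exact one_ne_zero (h2.symm.trans h)

lemma sq_neg_one {x : SL K} (hx : tr x = 0) : x * x = -1 := by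
  apply Subtype.ext
  rw [Matrix.SpecialLinearGroup.coe_mul, mul_self_eq, hx, zero_smul, zero_sub,
    Matrix.SpecialLinearGroup.coe_neg, Matrix.SpecialLinearGroup.coe_one]

lemma inv_neg {x : SL K} (hx : tr x = 0) : x⁻¹ = -x := by
  have h := sq_neg_one hx
  apply inv_eq_of_mul_eq_one_right
  rw [mul_neg, h, neg_neg]

lemma sc_pow_even {x : SL K} (hx : tr x = 0) {m : ℕ} (hm : Even m) : Sc (x ^ m) := by
  obtain ⟨k, rfl⟩ := hm
  rw [← two_mul, pow_mul, pow_two, sq_neg_one hx]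
  exact Sc_neg_one.pow k

lemma mem_Nor_of_comm {x y : SL K} (h : x * y = y * x) : x ∈ Nor (y : M2 K) := by
  left
  rw [← Matrix.SpecialLinearGroup.coe_mul, h, Matrix.SpecialLinearGroup.coe_mul]

lemma mem_Nor_of_inv {x y : SL K} (h : x * y = y⁻¹ * x) : x ∈ Nor (y : M2 K) := by
  right
  show (x : M2 K) * (y : M2 K) = (tr y • (1 : M2 K) - (y : M2 K)) * (x : M2 K)
  rw [← inv_eq, ← Matrix.SpecialLinearGroup.coe_mul, h, Matrix.SpecialLinearGroup.coe_mul]

/-- two elements of trace zero lie in a common torus normalizer -/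
lemma common_Nor {x1 x2 : SL K} (h1 : tr x1 = 0) (h2 : tr x2 = 0) :
    ∃ y : SL K, ¬ Sc y ∧ x1 ∈ Nor (y : M2 K) ∧ x2 ∈ Nor (y : M2 K) := by
  by_cases hy : Sc (x1 * x2)
  · -- `x2 = ± x1⁻¹`
    have hc : x2 * x1 = x1 * x2 := by
      have h3 : x2 = x1⁻¹ * (x1 * x2) := by group
      rw [h3, mul_assoc, hy.comm x1]
      group
    by_cases hx : Sc x1
    · obtain ⟨y, hy'⟩ := exists_nonsc (K := K)
      refine ⟨y, hy', mem_Nor_of_comm (hx.comm y), mem_Nor_of_comm ?_⟩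
      have hx2 : Sc x2 := by
        have h3 : x2 = x1⁻¹ * (x1 * x2) := by group
        rw [h3]
        exact hx.inv.mul hy
      exact hx2.comm y
    · exact ⟨x1, hx, mem_Nor_of_comm rfl, mem_Nor_of_comm hc⟩
  · have hi : (x1 * x2)⁻¹ = x2 * x1 := by
      rw [_root_.mul_inv_rev, inv_neg h1, inv_neg h2, neg_mul_neg]
    refine ⟨x1 * x2, hy, mem_Nor_of_inv ?_, mem_Nor_of_inv ?_⟩
    · rw [hi, ← mul_assoc, sq_neg_one h1, mul_assoc, sq_neg_one h1]
      simp
    · rw [hi, mul_assoc]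

/-- tuples generated by two elements of trace zero are bad -/
lemma gn_ne_top [Finite K] (hTRC : Stmt_TRC) (hROS : Stmt_ROS) (hq : 202 ≤ Nat.card K) {n : ℕ}
    (t : List (SL K) × (Fin n → SL K)) (x1 x2 : SL K) (h1 : tr x1 = 0) (h2 : tr x2 = 0)
    (hl : ∀ x ∈ t.1, x = x1 ∨ x = x2 ∨ x = x1⁻¹) (hr : ∀ j, t.2 j = x1 ∨ t.2 j = x2) : gn t ≠ ⊤ := by
  obtain ⟨y, hy, hy1, hy2⟩ := common_Nor h1 h2
  intro htop
  apply Nor_ne_top hTRC hROS hq y hy
  rw [eq_top_iff, ← htop, gn_le_iff]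
  refine ⟨?_, ?_, neg_one_mem_Nor _⟩
  · intro x hx
    rcases hl x hx with rfl | rfl | rfl
    · exact hy1
    · exact hy2
    · exact (Nor (y : M2 K)).inv_mem hy1
  · intro j
    rcases hr j with h | h
    · rw [h]; exact hy1
    · rw [h]; exact hy2

/-- the number of pairs of elements of trace zero -/
lemma pairs_zero [Finite K] (hTRC : Stmt_TRC) :
    Nat.card K ^ 4 ≤ 4 * Set.ncard {p : SL K × SL K | tr p.1 = 0 ∧ tr p.2 = 0} := by
  have h1 := (hTRC K 1 0 one_ne_zero).2.2.1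
  have h2 := le_ncard_prod (s := {x : SL K | tr x = 0}) (Set.toFinite _)
    (fun _ => {x : SL K | tr x = 0}) (fun _ _ => Set.toFinite _) (Set.ncard {x : SL K | tr x = 0})
    (fun _ _ => le_refl _)
  have h3 : {w : SL K × SL K | w.1 ∈ {x : SL K | tr x = 0} ∧ w.2 ∈ {x : SL K | tr x = 0}} =
      {p : SL K × SL K | tr p.1 = 0 ∧ tr p.2 = 0} := rfl
  rw [h3] at h2
  have hq := two_le_card (K := K)
  generalize Set.ncard {x : SL K | tr x = 0} = N at h1 h2
  generalize Set.ncard {p : SL K × SL K | tr p.1 = 0 ∧ tr p.2 = 0} = M at h2 ⊢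
  generalize Nat.card K = q at h1 hq ⊢
  have h4 : q ^ 2 ≤ 2 * N := by
    have : 2 * q ≤ q ^ 2 := by rw [pow_two]; exact Nat.mul_le_mul_right _ hq
    omega
  calc q ^ 4 = q ^ 2 * q ^ 2 := by ring
    _ ≤ (2 * N) * (2 * N) := Nat.mul_le_mul h4 h4
    _ = 4 * (N * N) := by ring
    _ ≤ 4 * M := Nat.mul_le_mul_left _ h2

end

/-- **BF2** -/
theorem stmt_BF2 (hTRC : Stmt_TRC) (hUPF : Stmt_UPF) (hROS : Stmt_ROS) : Stmt_BF2 := by
  intro m1 m2 hm1 hm2 he1 he2
  obtain ⟨C, hC⟩ := hUPF (.free 0) [m1, m2] (by simp) (Or.inl (by simp)) (by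
    intro m hm
    simp only [List.mem_cons, List.not_mem_nil, or_false] at hm
    rcases hm with rfl | rfl
    · exact hm1
    · exact hm2)
  refine ⟨C * 4, 202, ?_⟩
  intro K _ _ hq
  have h1 : (Tup (.free 0) [m1, m2] (⊤ : Subgroup (SL K))).ncard ≤ C * Nat.card K ^ 4 :=
    hC K ⊤ (Nat.card K) (by have := two_le_card (K := K); omega) (Subgroup.mem_top _) (hROS K)
  have h2 := pairs_zero (K := K) hTRC
  have h3 : Set.ncard {p : SL K × SL K | tr p.1 = 0 ∧ tr p.2 = 0} ≤ (Bad (.free 0) [m1, m2] K).ncard := by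
    refine Set.ncard_le_ncard_of_injOn
      (fun p : SL K × SL K => (([p.1, p.2], Fin.elim0) : List (SL K) × (Fin (Wd.free 0).n → SL K)))
      ?_ ?_ (Bad_finite _ _)
    · rintro ⟨x1, x2⟩ ⟨h1, h2⟩
      refine ⟨⟨?_, fun j => Subgroup.mem_top _, trivial⟩, ?_⟩
      · exact cons_mem_Xs.mpr ⟨Subgroup.mem_top _, sc_pow_even h1 he1,
          cons_mem_Xs.mpr ⟨Subgroup.mem_top _, sc_pow_even h2 he2, by simp⟩⟩
      · apply gn_ne_top hTRC hROS hq _ x1 x2 h1 h2
        · intro x hx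
          simp only [List.mem_cons, List.not_mem_nil, or_false] at hx
          rcases hx with h | h
          · exact Or.inl h
          · exact Or.inr (Or.inl h)
        · intro j
          exact Fin.elim0 (show Fin 0 from j)
    · rintro ⟨x1, x2⟩ _ ⟨y1, y2⟩ _ h
      have h4 := (Prod.ext_iff.mp h).1
      simp only [List.cons.injEq, and_true] at h4
      exact Prod.ext h4.1 h4.2
  calc (Tup (.free 0) [m1, m2] (⊤ : Subgroup (SL K))).ncard ≤ C * Nat.card K ^ 4 := h1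
    _ ≤ C * (4 * Set.ncard {p : SL K × SL K | tr p.1 = 0 ∧ tr p.2 = 0}) := Nat.mul_le_mul_left _ h2
    _ ≤ C * (4 * (Bad (.free 0) [m1, m2] K).ncard) := Nat.mul_le_mul_left _ (Nat.mul_le_mul_left _ h3)
    _ = C * 4 * (Bad (.free 0) [m1, m2] K).ncard := by ring

/-- **BS2** -/
theorem stmt_BS2 (hTRC : Stmt_TRC) (hUPF : Stmt_UPF) (hROS : Stmt_ROS) : Stmt_BS2 := by
  intro m1 m2 hm1 hm2 he1 he2
  obtain ⟨C, hC⟩ := hUPF .sq [m1, m2] (by simp) (Or.inl (by simp)) (by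
    intro m hm
    simp only [List.mem_cons, List.not_mem_nil, or_false] at hm
    rcases hm with rfl | rfl
    · exact hm1
    · exact hm2)
  refine ⟨C * 4, 202, ?_⟩
  intro K _ _ hq
  have h1 : (Tup .sq [m1, m2] (⊤ : Subgroup (SL K))).ncard ≤ C * Nat.card K ^ 4 :=
    hC K ⊤ (Nat.card K) (by have := two_le_card (K := K); omega) (Subgroup.mem_top _) (hROS K)
  have h2 := pairs_zero (K := K) hTRC
  have h3 : Set.ncard {p : SL K × SL K | tr p.1 = 0 ∧ tr p.2 = 0} ≤ (Bad .sq [m1, m2] K).ncard := by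
    refine Set.ncard_le_ncard_of_injOn
      (fun p : SL K × SL K => (([p.1, p.1⁻¹], fun _ => p.2) : List (SL K) × (Fin Wd.sq.n → SL K)))
      ?_ ?_ (Bad_finite _ _)
    · rintro ⟨x1, x2⟩ ⟨h1, h2⟩
      refine ⟨⟨?_, fun j => Subgroup.mem_top _, ?_⟩, ?_⟩
      · exact cons_mem_Xs.mpr ⟨Subgroup.mem_top _, sc_pow_even h1 he1,
          cons_mem_Xs.mpr ⟨Subgroup.mem_top _, sc_pow_even (by rw [tr_inv]; exact h1) he2, by simp⟩⟩
      · show Sc (([x1, x1⁻¹] : List (SL K)).prod * x2 ^ 2)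
        have h4 : ([x1, x1⁻¹] : List (SL K)).prod * x2 ^ 2 = -1 := by
          rw [List.prod_cons, List.prod_singleton, mul_inv_cancel, one_mul, pow_two, sq_neg_one h2]
        rw [h4]
        exact Sc_neg_one
      · apply gn_ne_top hTRC hROS hq _ x1 x2 h1 h2
        · intro x hx
          simp only [List.mem_cons, List.not_mem_nil, or_false] at hx
          rcases hx with h | h
          · exact Or.inl h
          · exact Or.inr (Or.inr h)
        · intro j
          exact Or.inr rfl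
    · rintro ⟨x1, x2⟩ _ ⟨y1, y2⟩ _ h
      have h4 := (Prod.ext_iff.mp h).1
      have h5 := congrFun (Prod.ext_iff.mp h).2 (0 : Fin 1)
      simp only [List.cons.injEq, and_true] at h4
      exact Prod.ext h4.1 h5
  calc (Tup .sq [m1, m2] (⊤ : Subgroup (SL K))).ncard ≤ C * Nat.card K ^ 4 := h1
    _ ≤ C * (4 * Set.ncard {p : SL K × SL K | tr p.1 = 0 ∧ tr p.2 = 0}) := Nat.mul_le_mul_left _ h2
    _ ≤ C * (4 * (Bad .sq [m1, m2] K).ncard) := Nat.mul_le_mul_left _ (Nat.mul_le_mul_left _ h3)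
    _ = C * 4 * (Bad .sq [m1, m2] K).ncard := by ring

end Pool.FG.helper79
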