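import Pool.Agent.Work.MP_65e34f.Basic

/-!
# MP_65e34f_al, block UPB : upper bounds in a Borel subgroup
-/

namespace Pool.FG.helper79

open Matrix Pool.FG

section
variable {K : Type} [Field K]

/-- tuples whose list part lies in `A` -/
lemma tup_le [Finite K] (W : Wd) (ds : List ℕ) (H : Subgroup (SL K)) (A : Set (List (SL K)))
    (hA : A.Finite) (N : ℕ)
    (hN : ∀ xs ∈ A, Set.ncard {w : Fin W.n → SL K | (∀ j, w j ∈ H) ∧ W.rel xs w} ≤ N) :
    Set.ncard {t : List (SL K) × (Fin W.n → SL K) | t ∈ Tup W ds H ∧ t.1 ∈ A} ≤ A.ncard * N := by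
  have h1 := ncard_prod_le (s := A) hA
    (fun xs => {w : Fin W.n → SL K | (∀ j, w j ∈ H) ∧ W.rel xs w}) (fun a _ => Set.toFinite _) N hN
  refine le_trans (Set.ncard_le_ncard ?_ ?_) h1
  · rintro ⟨xs, w⟩ ⟨⟨h1, h2, h3⟩, h4⟩
    exact ⟨h4, h2, h3⟩
  · apply (hA.prod (Set.finite_univ : (Set.univ : Set (Fin W.n → SL K)).Finite)).subset
    rintro ⟨xs, w⟩ ⟨h1, _⟩
    exact ⟨h1, trivial⟩

lemma pairs_le [Finite K] (R : SL K → SL K → Prop) :
    Set.ncard {w : Fin 2 → SL K | R (w 0) (w 1)} ≤ Set.ncard {p : SL K × SL K | R p.1 p.2} := by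
  have hsub : {w : Fin 2 → SL K | R (w 0) (w 1)} ⊆
      (fun p : SL K × SL K => (![p.1, p.2] : Fin 2 → SL K)) '' {p : SL K × SL K | R p.1 p.2} := by
    intro w hw
    refine ⟨(w 0, w 1), hw, ?_⟩
    funext i
    fin_cases i <;> rfl
  exact (Set.ncard_le_ncard hsub (Set.toFinite _)).trans (Set.ncard_image_le (Set.toFinite _))

lemma singles_le [Finite K] (R : SL K → Prop) :
    Set.ncard {w : Fin 1 → SL K | R (w 0)} ≤ Set.ncard {a : SL K | R a} := by
  have hsub : {w : Fin 1 → SL K | R (w 0)} ⊆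
      (fun a : SL K => (fun _ => a : Fin 1 → SL K)) '' {a : SL K | R a} := by
    intro w hw
    refine ⟨w 0, hw, ?_⟩
    funext i
    fin_cases i; rfl
  exact (Set.ncard_le_ncard hsub (Set.toFinite _)).trans (Set.ncard_image_le (Set.toFinite _))

lemma ncard_union_le' {α : Type*} {s t u : Set α} (h : s ⊆ t ∪ u) (ht : t.Finite) (hu : u.Finite) :
    s.ncard ≤ t.ncard + u.ncard :=
  (Set.ncard_le_ncard h (ht.union hu)).trans (Set.ncard_union_le _ _)

lemma fun_le [Finite K] (H : Subgroup (SL K)) (r : ℕ) :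
    Set.ncard {w : Fin r → SL K | ∀ j, w j ∈ H} ≤ Nat.card H ^ r := by
  have hsub : {w : Fin r → SL K | ∀ j, w j ∈ H} ⊆
      (fun (u : Fin r → H) (j : Fin r) => (u j : SL K)) '' Set.univ := by
    intro w hw
    exact ⟨fun j => ⟨w j, hw j⟩, trivial, rfl⟩
  refine (Set.ncard_le_ncard hsub (Set.toFinite _)).trans ((Set.ncard_image_le (Set.toFinite _)).trans ?_)
  rw [Set.ncard_univ, Nat.card_fun, Nat.card_fin]

lemma sc_mul_le [Finite K] (P : SL K) : Set.ncard {x : SL K | Sc (x * P)} ≤ 2 := by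
  have hsub : {x : SL K | Sc (x * P)} ⊆ (fun y => y * P⁻¹) '' {x : SL K | Sc x} := by
    intro x hx
    exact ⟨x * P, hx, by simp⟩
  exact (Set.ncard_le_ncard hsub (Set.toFinite _)).trans
    ((Set.ncard_image_le (Set.toFinite _)).trans ncard_Sc_le)

/-- `a² = ± P⁻¹`, `P` nonscalar -/
lemma sq_le [Finite K] (hSQR : Stmt_SQR) (P : SL K) (hP : ¬ Sc P) :
    Set.ncard {a : SL K | Sc (P * a ^ 2)} ≤ 4 := by
  have h1 : ¬ Sc P⁻¹ := fun h => hP (Sc_inv_iff.mp h)
  have h2 : ¬ Sc (-P⁻¹) := fun h => h1 (Sc_neg_iff.mp h)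
  have hsub : {a : SL K | Sc (P * a ^ 2)} ⊆ {a : SL K | a ^ 2 = P⁻¹} ∪ {a : SL K | a ^ 2 = -P⁻¹} := by
    intro a ha
    rcases ha with ha | ha
    · left
      exact (mul_eq_one_iff_inv_eq.mp ha).symm
    · right
      show a ^ 2 = -P⁻¹
      have h3 : P⁻¹ * (P * a ^ 2) = P⁻¹ * (-1) := by rw [ha]
      rw [inv_mul_cancel_left] at h3
      rw [h3]; simp
  have h3 := (hSQR K).1 _ h1
  have h4 := (hSQR K).1 _ h2
  have := ncard_union_le' hsub (Set.toFinite _) (Set.toFinite _)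
  omega

variable (v : Fin 2 → K) (hv : v ≠ 0)

/-- `a ∈ B`, `Sc (a²)` -/
lemma sqs_le [Finite K] (hBOB : Stmt_BOB) (hSQR : Stmt_SQR) :
    Set.ncard {a : SL K | a ∈ Bor v hv ∧ Sc (a ^ 2)} ≤ 4 * Nat.card K := by
  have hsub : {a : SL K | a ∈ Bor v hv ∧ Sc (a ^ 2)} ⊆
      {a : SL K | Sc a} ∪ {x : SL K | x ∈ Bor v hv ∧ tr x = 0} := by
    rintro a ⟨ha, hs⟩
    rcases (hSQR K).2.1 a hs with h | h
    · exact Or.inl h
    · exact Or.inr ⟨ha, h⟩
  have h1 := ncard_union_le' hsub (Set.toFinite _) (Set.toFinite _)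
  have h2 := (hBOB K v hv).2.1 0
  have h3 := ncard_Sc_le (K := K)
  have h4 := two_le_card (K := K)
  omega

/-- `a ∈ B`, `Sc (P a²)` -/
lemma sqP_le [Finite K] (hBOB : Stmt_BOB) (hSQR : Stmt_SQR) (P : SL K) :
    Set.ncard {a : SL K | a ∈ Bor v hv ∧ Sc (P * a ^ 2)} ≤ 4 * Nat.card K := by
  by_cases hP : Sc P
  · refine le_trans (Set.ncard_le_ncard ?_ (Set.toFinite _)) (sqs_le v hv hBOB hSQR)
    rintro a ⟨ha, hs⟩
    refine ⟨ha, ?_⟩
    have : a ^ 2 = P⁻¹ * (P * a ^ 2) := by group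
    rw [this]
    exact hP.inv.mul hs
  · have h1 : Set.ncard {a : SL K | a ∈ Bor v hv ∧ Sc (P * a ^ 2)} ≤ 4 := by
      refine le_trans (Set.ncard_le_ncard ?_ (Set.toFinite _)) (sq_le hSQR P hP)
      rintro a ⟨_, hs⟩
      exact hs
    have h4 := two_le_card (K := K)
    omega

/-- pairs `a, b ∈ B`, `Sc (P a² b²)` -/
lemma sq2_le [Finite K] (hBOB : Stmt_BOB) (hSQR : Stmt_SQR) (P : SL K) :
    Set.ncard {p : SL K × SL K | p.1 ∈ Bor v hv ∧ p.2 ∈ Bor v hv ∧ Sc (P * (p.1 ^ 2 * p.2 ^ 2))} ≤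
      20 * Nat.card K ^ 2 := by
  have hsub : {p : SL K × SL K | p.1 ∈ Bor v hv ∧ p.2 ∈ Bor v hv ∧ Sc (P * (p.1 ^ 2 * p.2 ^ 2))} ⊆
      {p : SL K × SL K | p.1 ∈ {a : SL K | a ∈ Bor v hv ∧ ¬ Sc (P * a ^ 2)} ∧
        p.2 ∈ {b : SL K | Sc (P * p.1 ^ 2 * b ^ 2)}} ∪
      {p : SL K × SL K | p.1 ∈ {a : SL K | a ∈ Bor v hv ∧ Sc (P * a ^ 2)} ∧
        p.2 ∈ {b : SL K | b ∈ Bor v hv ∧ Sc (P * p.1 ^ 2 * b ^ 2)}} := by
    rintro ⟨a, b⟩ ⟨h1, h2, h3⟩
    have h4 : Sc (P * a ^ 2 * b ^ 2) := by rw [mul_assoc]; exact h3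
    by_cases h : Sc (P * a ^ 2)
    · exact Or.inr ⟨⟨h1, h⟩, ⟨h2, h4⟩⟩
    · exact Or.inl ⟨⟨h1, h⟩, h4⟩
  have h1 := ncard_union_le' hsub (Set.toFinite _) (Set.toFinite _)
  have h2 := ncard_prod_le (s := {a : SL K | a ∈ Bor v hv ∧ ¬ Sc (P * a ^ 2)}) (Set.toFinite _)
    (fun a => {b : SL K | Sc (P * a ^ 2 * b ^ 2)}) (fun a _ => Set.toFinite _) 4
    (fun a ha => sq_le hSQR _ ha.2)
  have h3 := ncard_prod_le (s := {a : SL K | a ∈ Bor v hv ∧ Sc (P * a ^ 2)}) (Set.toFinite _)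
    (fun a => {b : SL K | b ∈ Bor v hv ∧ Sc (P * a ^ 2 * b ^ 2)}) (fun a _ => Set.toFinite _)
    (4 * Nat.card K) (fun a _ => sqP_le v hv hBOB hSQR _)
  have h4 : Set.ncard {a : SL K | a ∈ Bor v hv ∧ ¬ Sc (P * a ^ 2)} ≤ Nat.card K ^ 2 := by
    refine le_trans (Set.ncard_le_ncard (fun a ha => ha.1) (Set.toFinite _)) ?_
    exact (hBOB K v hv).1
  have h5 := sqP_le v hv hBOB hSQR P
  have h6 := Nat.mul_le_mul_right 4 h4
  have h7 := Nat.mul_le_mul_right (4 * Nat.card K) h5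
  have h8 : 4 * Nat.card K * (4 * Nat.card K) = 16 * Nat.card K ^ 2 := by ring
  omega

/-- pairs `a, b ∈ B`, `[a,b] = z` -/
lemma cmz_le [Finite K] (hBOB : Stmt_BOB) (hROS : Stmt_ROS) (z : SL K) :
    Set.ncard {p : SL K × SL K | p.1 ∈ Bor v hv ∧ p.2 ∈ Bor v hv ∧ cm p.1 p.2 = z} ≤
      102 * Nat.card K ^ 3 := by
  have hsub : {p : SL K × SL K | p.1 ∈ Bor v hv ∧ p.2 ∈ Bor v hv ∧ cm p.1 p.2 = z} ⊆
      {p : SL K × SL K | p.1 ∈ {a : SL K | a ∈ Bor v hv ∧ ¬ Sc a} ∧
        p.2 ∈ {b : SL K | b ∈ (⊤ : Subgroup (SL K)) ∧ b * (p.1)⁻¹ = ((p.1)⁻¹ * z) * b}} ∪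
      {p : SL K × SL K | p.1 ∈ {a : SL K | Sc a} ∧
        p.2 ∈ {b : SL K | b ∈ Bor v hv}} := by
    rintro ⟨a, b⟩ ⟨h1, h2, h3⟩
    by_cases h : Sc a
    · exact Or.inr ⟨h, h2⟩
    · refine Or.inl ⟨⟨h1, h⟩, ⟨Subgroup.mem_top _, ?_⟩⟩
      show b * a⁻¹ = (a⁻¹ * z) * b
      have h3' : a * b * a⁻¹ * b⁻¹ = z := h3
      rw [← h3']
      group
  have h1 := ncard_union_le' hsub (Set.toFinite _) (Set.toFinite _)
  have h2 := ncard_prod_le (s := {a : SL K | a ∈ Bor v hv ∧ ¬ Sc a}) (Set.toFinite _)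
    (fun a => {b : SL K | b ∈ (⊤ : Subgroup (SL K)) ∧ b * a⁻¹ = (a⁻¹ * z) * b})
    (fun a _ => Set.toFinite _) (100 * Nat.card K)
    (fun a ha => (hROS K).2.2.2.1 a⁻¹ (Subgroup.mem_top _) (fun h => ha.2 (Sc_inv_iff.mp h)) (a⁻¹ * z)
      (Subgroup.mem_top _))
  have h3 := ncard_prod_le (s := {a : SL K | Sc a}) (Set.toFinite _)
    (fun _ => {b : SL K | b ∈ Bor v hv}) (fun a _ => Set.toFinite _)
    (Nat.card K ^ 2) (fun a _ => (hBOB K v hv).1)
  have h4 : Set.ncard {a : SL K | a ∈ Bor v hv ∧ ¬ Sc a} ≤ Nat.card K ^ 2 := by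
    refine le_trans (Set.ncard_le_ncard (fun a ha => ha.1) (Set.toFinite _)) ?_
    exact (hBOB K v hv).1
  have h5 := ncard_Sc_le (K := K)
  have h6 := Nat.mul_le_mul_right (100 * Nat.card K) h4
  have h7 := Nat.mul_le_mul_right (Nat.card K ^ 2) h5
  have h8 : Nat.card K ^ 2 * (100 * Nat.card K) = 100 * Nat.card K ^ 3 := by ring
  have h9 : Nat.card K ^ 2 ≤ Nat.card K ^ 3 :=
    Nat.pow_le_pow_right (by have := two_le_card (K := K); omega) (by norm_num)
  omega

/-- pairs `a, b ∈ B`, `Sc (P [a,b])` -/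
lemma cm_le [Finite K] (hBOB : Stmt_BOB) (hROS : Stmt_ROS) (P : SL K) :
    Set.ncard {p : SL K × SL K | p.1 ∈ Bor v hv ∧ p.2 ∈ Bor v hv ∧ Sc (P * cm p.1 p.2)} ≤
      204 * Nat.card K ^ 3 := by
  have hsub : {p : SL K × SL K | p.1 ∈ Bor v hv ∧ p.2 ∈ Bor v hv ∧ Sc (P * cm p.1 p.2)} ⊆
      {p : SL K × SL K | p.1 ∈ Bor v hv ∧ p.2 ∈ Bor v hv ∧ cm p.1 p.2 = P⁻¹} ∪
      {p : SL K × SL K | p.1 ∈ Bor v hv ∧ p.2 ∈ Bor v hv ∧ cm p.1 p.2 = -P⁻¹} := by
    rintro ⟨a, b⟩ ⟨h1, h2, h3⟩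
    rcases h3 with h3 | h3
    · left
      exact ⟨h1, h2, (mul_eq_one_iff_inv_eq.mp h3).symm⟩
    · right
      refine ⟨h1, h2, ?_⟩
      have h4 : P⁻¹ * (P * cm a b) = P⁻¹ * (-1) := by
        show P⁻¹ * (P * cm (a, b).1 (a, b).2) = P⁻¹ * (-1)
        rw [h3]
      rw [inv_mul_cancel_left] at h4
      show cm a b = -P⁻¹
      rw [h4]; simp
  have h1 := ncard_union_le' hsub (Set.toFinite _) (Set.toFinite _)
  have h2 := cmz_le v hv hBOB hROS P⁻¹
  have h3 := cmz_le v hv hBOB hROS (-P⁻¹)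
  omega

/-- the constant for lists -/
def cst : List ℕ → ℕ
  | [] => 1
  | m :: ms => 4 * m * cst ms

lemma pow_le' [Finite K] (hBOB : Stmt_BOB) (hTRM : Stmt_TRM) (m : ℕ) (hm : 1 ≤ m) :
    Set.ncard {x : SL K | x ∈ Bor v hv ∧ Sc (x ^ m)} ≤ 4 * m * Nat.card K := by
  have h1 := ncard_le_mul_of_fiber (s := {x : SL K | x ∈ Bor v hv ∧ Sc (x ^ m)})
    (t := {τ : K | ∃ x : SL K, Sc (x ^ m) ∧ tr x = τ}) (Set.toFinite _) (Set.toFinite _) tr
    (fun a ha => ⟨a, ha.2, rfl⟩) (2 * Nat.card K) (fun τ _ => by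
      refine le_trans (Set.ncard_le_ncard ?_ (Set.toFinite _)) ((hBOB K v hv).2.1 τ)
      rintro a ⟨ha, hτ⟩
      exact ⟨ha.1, hτ⟩)
  have h2 := hTRM K m hm
  have h3 := Nat.mul_le_mul_right (2 * Nat.card K) h2
  have h4 : 2 * m * (2 * Nat.card K) = 4 * m * Nat.card K := by ring
  omega

lemma Xs_le [Finite K] (hBOB : Stmt_BOB) (hTRM : Stmt_TRM) (ds : List ℕ) (hds : ∀ m ∈ ds, 1 ≤ m) :
    (Xs ds (Bor v hv)).ncard ≤ cst ds * Nat.card K ^ ds.length := by
  induction ds with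
  | nil => simp [cst]
  | cons m ms ih =>
    have ih' := ih (fun k hk => hds k (List.mem_cons_of_mem _ hk))
    have h1 := ncard_prod_le (s := {x : SL K | x ∈ Bor v hv ∧ Sc (x ^ m)}) (Set.toFinite _)
      (fun _ => Xs ms (Bor v hv)) (fun _ _ => Xs_finite _ _) _ (fun _ _ => ih')
    have hfin : {w : SL K × List (SL K) | w.1 ∈ {x : SL K | x ∈ Bor v hv ∧ Sc (x ^ m)} ∧
        w.2 ∈ Xs ms (Bor v hv)}.Finite := by
      apply ((Set.finite_univ : (Set.univ : Set (SL K)).Finite).prod (Xs_finite ms (Bor v hv))).subset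
      rintro ⟨x, ys⟩ ⟨_, h⟩
      exact ⟨trivial, h⟩
    have hsub : Xs (m :: ms) (Bor v hv) ⊆ (fun w : SL K × List (SL K) => w.1 :: w.2) ''
        {w : SL K × List (SL K) | w.1 ∈ {x : SL K | x ∈ Bor v hv ∧ Sc (x ^ m)} ∧
          w.2 ∈ Xs ms (Bor v hv)} := by
      intro xs hxs
      obtain ⟨x, ys, rfl, h1, h2, h3⟩ := mem_Xs_cons.mp hxs
      exact ⟨(x, ys), ⟨⟨h1, h2⟩, h3⟩, rfl⟩
    have h2 := (Set.ncard_le_ncard hsub (hfin.image _)).trans (Set.ncard_image_le hfin)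
    have h3 := pow_le' v hv hBOB hTRM m (hds m (by simp))
    have h4 := Nat.mul_le_mul_right (cst ms * Nat.card K ^ ms.length) h3
    have h5 : 4 * m * Nat.card K * (cst ms * Nat.card K ^ ms.length) =
        cst (m :: ms) * Nat.card K ^ (m :: ms).length := by
      rw [List.length_cons, pow_succ, cst]; ring
    exact h2.trans (h1.trans (h4.trans (le_of_eq h5)))

lemma XsSc_le [Finite K] (hBOB : Stmt_BOB) (hTRM : Stmt_TRM) (ds : List ℕ) (hds : ∀ m ∈ ds, 1 ≤ m)
    (hne : ds ≠ []) :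
    Set.ncard {xs | xs ∈ Xs ds (Bor v hv) ∧ Sc xs.prod} ≤ 2 * cst ds * Nat.card K ^ (ds.length - 1) := by
  cases ds with
  | nil => exact absurd rfl hne
  | cons m ms =>
    have ih := Xs_le v hv hBOB hTRM ms (fun k hk => hds k (List.mem_cons_of_mem _ hk))
    have h1 := ncard_prod_le (s := Xs ms (Bor v hv)) (Xs_finite _ _)
      (fun ys => {x : SL K | Sc (x * ys.prod)}) (fun _ _ => Set.toFinite _) 2
      (fun ys _ => sc_mul_le ys.prod)
    have hfin : {w : List (SL K) × SL K | w.1 ∈ Xs ms (Bor v hv) ∧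
        w.2 ∈ {x : SL K | Sc (x * w.1.prod)}}.Finite := by
      apply ((Xs_finite ms (Bor v hv)).prod (Set.finite_univ : (Set.univ : Set (SL K)).Finite)).subset
      rintro ⟨x, ys⟩ ⟨h, _⟩
      exact ⟨h, trivial⟩
    have hsub : {xs | xs ∈ Xs (m :: ms) (Bor v hv) ∧ Sc xs.prod} ⊆
        (fun w : List (SL K) × SL K => w.2 :: w.1) ''
        {w : List (SL K) × SL K | w.1 ∈ Xs ms (Bor v hv) ∧
          w.2 ∈ {x : SL K | Sc (x * w.1.prod)}} := by
      rintro xs ⟨hxs, hs⟩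
      obtain ⟨x, ys, rfl, h1, h2, h3⟩ := mem_Xs_cons.mp hxs
      refine ⟨(ys, x), ⟨h3, ?_⟩, rfl⟩
      rw [List.prod_cons] at hs
      exact hs
    have h2 := (Set.ncard_le_ncard hsub (hfin.image _)).trans (Set.ncard_image_le hfin)
    have hm : 1 ≤ m := hds m (by simp)
    have h4 := Nat.mul_le_mul_right 2 ih
    refine h2.trans (h1.trans (h4.trans ?_))
    have h6 : (m :: ms).length - 1 = ms.length := by simp
    rw [h6]
    have h7 : cst (m :: ms) = 4 * m * cst ms := rfl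
    rw [h7]
    calc cst ms * Nat.card K ^ ms.length * 2 = 2 * (1 * cst ms) * Nat.card K ^ ms.length := by ring
      _ ≤ 2 * (4 * m * cst ms) * Nat.card K ^ ms.length := by
        apply Nat.mul_le_mul_right
        apply Nat.mul_le_mul_left
        apply Nat.mul_le_mul_right
        omega

/-- `tr x = 2` and `x^m = ±1`, `m ≠ 0` in `K` : `x = 1` -/
lemma unip (x : SL K) (hx : tr x = 2) (m : ℕ) (hm : (m : K) ≠ 0) (h : Sc (x ^ m)) : x = 1 := by
  have h0 : ((x : M2 K) - 1) * ((x : M2 K) - 1) = 0 := by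
    have := mul_self_eq x
    rw [hx] at this
    rw [sub_mul, mul_sub, this, two_smul, mul_one, one_mul]
    abel
  have hp : ∀ n : ℕ, ((x ^ n : SL K) : M2 K) = 1 + (n : K) • ((x : M2 K) - 1) := by
    intro n
    induction n with
    | zero => simp
    | succ n ih =>
      rw [pow_succ, Matrix.SpecialLinearGroup.coe_mul, ih]
      have h1 : (x : M2 K) = 1 + ((x : M2 K) - 1) := by simp
      calc (1 + (n : K) • ((x : M2 K) - 1)) * (x : M2 K)
          = (1 + (n : K) • ((x : M2 K) - 1)) * (1 + ((x : M2 K) - 1)) := by rw [← h1]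
        _ = 1 + ((x : M2 K) - 1) + (n : K) • ((x : M2 K) - 1) +
              (n : K) • (((x : M2 K) - 1) * ((x : M2 K) - 1)) := by
            rw [add_mul, mul_add, mul_add, one_mul, one_mul, mul_one, smul_mul_assoc]
            abel
        _ = _ := by
            rw [h0, smul_zero, add_zero]
            push_cast
            rw [add_smul, one_smul]
            abel
  have hpm := hp m
  -- `m (x - 1)` is a scalar matrix
  have key : ∃ c : K, (m : K) • ((x : M2 K) - 1) = c • (1 : M2 K) := by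
    rcases h with h | h
    · refine ⟨0, ?_⟩
      rw [h, Matrix.SpecialLinearGroup.coe_one] at hpm
      have : (m : K) • ((x : M2 K) - 1) = 0 := by
        have h2 : (1 : M2 K) + (m : K) • ((x : M2 K) - 1) = 1 + 0 := by rw [← hpm, add_zero]
        exact add_left_cancel h2
      rw [this, zero_smul]
    · refine ⟨-2, ?_⟩
      rw [h, Matrix.SpecialLinearGroup.coe_neg, Matrix.SpecialLinearGroup.coe_one] at hpm
      have h2 : (1 : M2 K) + (m : K) • ((x : M2 K) - 1) = 1 + (-2 : K) • (1 : M2 K) := by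
        rw [← hpm, neg_smul, two_smul]
        abel
      exact add_left_cancel h2
  obtain ⟨c, hc⟩ := key
  have hx1 : (x : M2 K) - 1 = ((m : K)⁻¹ * c) • (1 : M2 K) := by
    rw [mul_smul, ← hc, smul_smul, inv_mul_cancel₀ hm, one_smul]
  have hc0 : ((m : K)⁻¹ * c) = 0 := by
    rw [hx1] at h0
    have h2 := congrFun (congrFun h0 0) 0
    simp only [smul_mul_assoc, one_mul, Matrix.smul_apply, Matrix.one_apply_eq, smul_eq_mul,
      mul_one, Matrix.zero_apply] at h2
    exact mul_self_eq_zero.mp h2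
  rw [hc0, zero_smul] at hx1
  apply Subtype.ext
  rw [Matrix.SpecialLinearGroup.coe_one]
  exact sub_eq_zero.mp hx1

end

/-- **UPB** -/
theorem stmt_UPB (hBOB : Stmt_BOB) (hTRM : Stmt_TRM) (hSQR : Stmt_SQR) (hROS : Stmt_ROS) :
    Stmt_UPB := by
  constructor
  · intro W ds hW hds
    refine ⟨1000 * cst ds, ?_⟩
    intro K _ _ v hv
    have hX := Xs_le v hv hBOB hTRM ds hds
    have hq := two_le_card (K := K)
    have hall : ∀ t ∈ Tup W ds (Bor v hv), t ∈ Tup W ds (Bor v hv) ∧ t.1 ∈ Xs ds (Bor v hv) :=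
      fun t ht => ⟨ht, ht.1⟩
    -- all lists, `N` values of the word variables
    have hgen : ∀ N : ℕ, (∀ xs ∈ Xs ds (Bor v hv),
        Set.ncard {w : Fin W.n → SL K | (∀ j, w j ∈ Bor v hv) ∧ W.rel xs w} ≤ N) →
        (Tup W ds (Bor v hv)).ncard ≤ cst ds * Nat.card K ^ ds.length * N := by
      intro N hN
      have h1 := tup_le W ds (Bor v hv) (Xs ds (Bor v hv)) (Xs_finite _ _) N hN
      have h2 : (Tup W ds (Bor v hv)).ncard ≤
          Set.ncard {t : List (SL K) × (Fin W.n → SL K) | t ∈ Tup W ds (Bor v hv) ∧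
            t.1 ∈ Xs ds (Bor v hv)} :=
        Set.ncard_le_ncard hall ((Tup_finite _ _ _).subset (fun t ht => ht.1))
      exact h2.trans (h1.trans (Nat.mul_le_mul_right _ hX))
    cases W with
    | free r =>
      have h1 := hgen (Nat.card K ^ (2 * r)) (by
        intro xs _
        refine le_trans (Set.ncard_le_ncard (fun w hw => hw.1) (Set.toFinite _)) ?_
        refine (fun_le (Bor v hv) r).trans ?_
        rw [pow_mul]
        exact Nat.pow_le_pow_left (hBOB K v hv).1 r)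
      refine h1.trans ?_
      show cst ds * Nat.card K ^ ds.length * Nat.card K ^ (2 * r) ≤
        1000 * cst ds * Nat.card K ^ (ds.length + 2 * r)
      rw [mul_assoc, ← pow_add]
      apply Nat.mul_le_mul_right
      omega
    | zero =>
      have hne : ds ≠ [] := by
        rcases hW with h | h
        · exact h
        · exact absurd rfl h.2
      have hS := XsSc_le v hv hBOB hTRM ds hds hne
      have h1 := tup_le .zero ds (Bor v hv) {xs | xs ∈ Xs ds (Bor v hv) ∧ Sc xs.prod}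
        ((Xs_finite _ _).subset (fun t ht => ht.1)) 1 (by
          intro xs _
          have : Subsingleton (Fin Wd.zero.n → SL K) := by
            show Subsingleton (Fin 0 → SL K)
            infer_instance
          apply Set.ncard_le_one_of_subsingleton)
      have h2 : (Tup .zero ds (Bor v hv)).ncard ≤
          Set.ncard {t : List (SL K) × (Fin Wd.zero.n → SL K) | t ∈ Tup .zero ds (Bor v hv) ∧
            t.1 ∈ {xs | xs ∈ Xs ds (Bor v hv) ∧ Sc xs.prod}} :=
        Set.ncard_le_ncard (fun t ht => ⟨ht, ht.1, ht.2.2⟩)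
          ((Tup_finite _ _ _).subset (fun t ht => ht.1))
      refine h2.trans (h1.trans ?_)
      rw [mul_one]
      refine hS.trans ?_
      show 2 * cst ds * Nat.card K ^ (ds.length - 1) ≤ 1000 * cst ds * Nat.card K ^ (ds.length - 1)
      apply Nat.mul_le_mul_right
      omega
    | comm =>
      have h1 := hgen (204 * Nat.card K ^ 3) (by
        intro xs _
        refine le_trans (Set.ncard_le_ncard ?_ (Set.toFinite _))
          ((pairs_le (fun a b => a ∈ Bor v hv ∧ b ∈ Bor v hv ∧ Sc (xs.prod * cm a b))).trans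
            (cm_le v hv hBOB hROS xs.prod))
        rintro w ⟨hw1, hw2⟩
        exact ⟨hw1 (0 : Fin 2), hw1 (1 : Fin 2), hw2⟩)
      refine h1.trans ?_
      show cst ds * Nat.card K ^ ds.length * (204 * Nat.card K ^ 3) ≤
        1000 * cst ds * Nat.card K ^ (ds.length + 3)
      have h2 : cst ds * Nat.card K ^ ds.length * (204 * Nat.card K ^ 3) =
          204 * cst ds * Nat.card K ^ (ds.length + 3) := by rw [pow_add]; ring
      rw [h2]
      apply Nat.mul_le_mul_right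
      omega
    | sq2 =>
      have h1 := hgen (20 * Nat.card K ^ 2) (by
        intro xs _
        refine le_trans (Set.ncard_le_ncard ?_ (Set.toFinite _))
          ((pairs_le (fun a b => a ∈ Bor v hv ∧ b ∈ Bor v hv ∧ Sc (xs.prod * (a ^ 2 * b ^ 2)))).trans
            (sq2_le v hv hBOB hSQR xs.prod))
        rintro w ⟨hw1, hw2⟩
        exact ⟨hw1 (0 : Fin 2), hw1 (1 : Fin 2), hw2⟩)
      refine h1.trans ?_
      show cst ds * Nat.card K ^ ds.length * (20 * Nat.card K ^ 2) ≤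
        1000 * cst ds * Nat.card K ^ (ds.length + 2)
      have h2 : cst ds * Nat.card K ^ ds.length * (20 * Nat.card K ^ 2) =
          20 * cst ds * Nat.card K ^ (ds.length + 2) := by rw [pow_add]; ring
      rw [h2]
      apply Nat.mul_le_mul_right
      omega
    | sq =>
      have hne : ds ≠ [] := by
        rcases hW with h | h
        · exact h
        · exact absurd rfl h.1
      have hS := XsSc_le v hv hBOB hTRM ds hds hne
      have h1 := tup_le .sq ds (Bor v hv) {xs | xs ∈ Xs ds (Bor v hv) ∧ Sc xs.prod}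
        ((Xs_finite _ _).subset (fun t ht => ht.1)) (4 * Nat.card K) (by
          intro xs _
          refine le_trans (Set.ncard_le_ncard ?_ (Set.toFinite _))
            ((singles_le (fun a => a ∈ Bor v hv ∧ Sc (xs.prod * a ^ 2))).trans
              (sqP_le v hv hBOB hSQR xs.prod))
          rintro w ⟨hw1, hw2⟩
          exact ⟨hw1 (0 : Fin 1), hw2⟩)
      have h2 := tup_le .sq ds (Bor v hv) {xs | xs ∈ Xs ds (Bor v hv) ∧ ¬ Sc xs.prod}
        ((Xs_finite _ _).subset (fun t ht => ht.1)) 4 (by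
          intro xs hxs
          refine le_trans (Set.ncard_le_ncard ?_ (Set.toFinite _))
            ((singles_le (fun a => Sc (xs.prod * a ^ 2))).trans (sq_le hSQR xs.prod hxs.2))
          rintro w ⟨hw1, hw2⟩
          exact hw2)
      have h3 : Tup .sq ds (Bor v hv) ⊆
          {t : List (SL K) × (Fin Wd.sq.n → SL K) | t ∈ Tup .sq ds (Bor v hv) ∧
            t.1 ∈ {xs | xs ∈ Xs ds (Bor v hv) ∧ Sc xs.prod}} ∪
          {t : List (SL K) × (Fin Wd.sq.n → SL K) | t ∈ Tup .sq ds (Bor v hv) ∧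
            t.1 ∈ {xs | xs ∈ Xs ds (Bor v hv) ∧ ¬ Sc xs.prod}} := by
        intro t ht
        by_cases h : Sc t.1.prod
        · exact Or.inl ⟨ht, ht.1, h⟩
        · exact Or.inr ⟨ht, ht.1, h⟩
      have h4 := ncard_union_le' h3 ((Tup_finite _ _ _).subset (fun t ht => ht.1))
        ((Tup_finite _ _ _).subset (fun t ht => ht.1))
      have h5 := Nat.mul_le_mul_right (4 * Nat.card K) hS
      have h6 : Set.ncard {xs | xs ∈ Xs ds (Bor v hv) ∧ ¬ Sc xs.prod} ≤
          cst ds * Nat.card K ^ ds.length :=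
        (Set.ncard_le_ncard (fun t ht => ht.1) (Xs_finite _ _)).trans hX
      have h7 := Nat.mul_le_mul_right 4 h6
      obtain ⟨l, hl⟩ : ∃ l, ds.length = l + 1 :=
        ⟨ds.length - 1, by have := List.length_pos_of_ne_nil hne; omega⟩
      show (Tup .sq ds (Bor v hv)).ncard ≤ 1000 * cst ds * Nat.card K ^ ds.length
      rw [hl] at h5 h7 ⊢
      have h8 : 2 * cst ds * Nat.card K ^ (l + 1 - 1) * (4 * Nat.card K) =
          8 * (cst ds * Nat.card K ^ (l + 1)) := by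
        rw [Nat.add_sub_cancel, pow_succ]; ring
      have h9 : 1000 * cst ds * Nat.card K ^ (l + 1) = 1000 * (cst ds * Nat.card K ^ (l + 1)) := by ring
      rw [h8] at h5
      rw [h9]
      omega
  · intro m hm
    refine ⟨408, ?_⟩
    intro K _ _ hchar v hv
    have hmK : (m : K) ≠ 0 := fun h => hchar ((ringChar.spec K m).mp h)
    have hA : ({[1], [-1]} : Set (List (SL K))).ncard ≤ 2 :=
      (Set.ncard_insert_le _ _).trans (by simp)
    have h1 := tup_le .comm [m] (Bor v hv) ({[1], [-1]} : Set (List (SL K))) (Set.toFinite _)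
      (204 * Nat.card K ^ 3) (by
        intro xs _
        refine le_trans (Set.ncard_le_ncard ?_ (Set.toFinite _))
          ((pairs_le (fun a b => a ∈ Bor v hv ∧ b ∈ Bor v hv ∧ Sc (xs.prod * cm a b))).trans
            (cm_le v hv hBOB hROS xs.prod))
        rintro w ⟨hw1, hw2⟩
        exact ⟨hw1 (0 : Fin 2), hw1 (1 : Fin 2), hw2⟩)
    have h2 : (Tup .comm [m] (Bor v hv)).ncard ≤
        Set.ncard {t : List (SL K) × (Fin Wd.comm.n → SL K) | t ∈ Tup .comm [m] (Bor v hv) ∧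
          t.1 ∈ ({[1], [-1]} : Set (List (SL K)))} := by
      apply Set.ncard_le_ncard _ ((Tup_finite _ _ _).subset (fun t ht => ht.1))
      rintro ⟨xs, w⟩ ht
      refine ⟨ht, ?_⟩
      obtain ⟨hxs, hwB, hrel⟩ := ht
      obtain ⟨x, ys, hx, hxB, hpow, hys⟩ := mem_Xs_cons.mp hxs
      rw [Xs_nil] at hys
      have hys' : ys = [] := hys
      subst hys'
      have hx' : xs = [x] := hx
      subst hx'
      have hrel' : Sc (x * cm (w (0 : Fin 2)) (w (1 : Fin 2))) := by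
        have : Sc (([x] : List (SL K)).prod * cm (w (0 : Fin 2)) (w (1 : Fin 2))) := hrel
        rwa [List.prod_singleton] at this
      have htr : tr (cm (w (0 : Fin 2)) (w (1 : Fin 2))) = 2 :=
        (hBOB K v hv).2.2 _ (hwB (0 : Fin 2)) _ (hwB (1 : Fin 2))
      have hSc : x = 1 ∨ x = -1 := by
        rcases hrel' with h | h
        · left
          have hx2 : tr x = 2 := by
            have : x = (cm (w (0 : Fin 2)) (w (1 : Fin 2)))⁻¹ := eq_inv_of_mul_eq_one_left h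
            rw [this, tr_inv, htr]
          exact unip x hx2 m hmK hpow
        · right
          have hx2 : tr (-x) = 2 := by
            have h3 : (-x) * cm (w (0 : Fin 2)) (w (1 : Fin 2)) = 1 := by
              rw [neg_mul, h, neg_neg]
            have : -x = (cm (w (0 : Fin 2)) (w (1 : Fin 2)))⁻¹ := eq_inv_of_mul_eq_one_left h3
            rw [this, tr_inv, htr]
          have hpow' : Sc ((-x) ^ m) := by
            rcases Nat.even_or_odd m with he | ho
            · rw [he.neg_pow]; exact hpow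
            · rw [ho.neg_pow]; exact hpow.neg
          have h4 := unip (-x) hx2 m hmK hpow'
          rw [← h4, neg_neg]
      rcases hSc with h | h
      · subst h; simp
      · subst h; simp
    have h3 := Nat.mul_le_mul_right (204 * Nat.card K ^ 3) hA
    have h4 : 2 * (204 * Nat.card K ^ 3) = 408 * Nat.card K ^ 3 := by ring
    omega

end Pool.FG.helper79
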